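import Pool.Agent.W314.BA.Lat

/-!
# Transfer of Haar measure to `PSL(2,ℝ)`
-/

set_option autoImplicit false

open MeasureTheory Set Filter Topology
open scoped ENNReal NNReal UpperHalfPlane

namespace Pool.Agent.W196.BA.HT

open Pool.Agent.W314.BA

noncomputable section

/-- the projection -/
def pr : G → PSL := fun g => (QuotientGroup.mk g : PSL)

lemma pr_cont : Continuous pr := QuotientGroup.continuous_mk

lemma pr_open : IsOpenMap pr := QuotientGroup.isOpenMap_coe

lemma pr_surj : Function.Surjective pr := QuotientGroup.mk_surjective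

lemma pr_mul (g h : G) : pr (g * h) = pr g * pr h := rfl

/-- elements with the same image differ by a scalar -/
lemma pr_eq {g g' : G} (h : pr g = pr g') : ∃ r : ℝ, r ^ 2 = 1 ∧ ∀ i j, g'.1 i j = r * g.1 i j := by
  have h1 : g⁻¹ * g' ∈ Subgroup.center G := QuotientGroup.eq.1 h
  obtain ⟨r, hr1, hr2⟩ := Matrix.SpecialLinearGroup.mem_center_iff.1 h1
  refine ⟨r, by simpa using hr1, fun i j => ?_⟩
  have h2 : g' = g * (g⁻¹ * g') := by group
  have h3 : g'.1 = g.1 * Matrix.scalar (Fin 2) r := by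
    rw [hr2]
    exact congrArg (fun x : G => x.1) h2
  rw [h3]
  simp [Matrix.mul_apply, Matrix.scalar_apply, Matrix.diagonal_apply]
  ring

lemma hh_pr {g g' : G} (h : pr g = pr g') : hh g = hh g' := by
  obtain ⟨r, hr, he⟩ := pr_eq h
  rw [hh_eq, hh_eq, he, he, he, he]
  simp only [mul_pow, hr, one_mul]

lemma smul_pr {g g' : G} (h : pr g = pr g') (p : ℍ) : g • p = g' • p := by
  obtain ⟨r, hr, he⟩ := pr_eq h
  have hr0 : (r : ℂ) ≠ 0 := by
    intro h0
    have : r = 0 := by exact_mod_cast h0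
    rw [this] at hr
    norm_num at hr
  apply UpperHalfPlane.ext
  rw [UpperHalfPlane.coe_specialLinearGroup_apply, UpperHalfPlane.coe_specialLinearGroup_apply]
  have e : ∀ i j, (g' i j : ℝ) = r * g i j := he
  rw [e, e, e, e]
  simp only [Algebra.algebraMap_self, RingHom.id_apply]
  push_cast
  rw [mul_assoc, mul_assoc, ← mul_add, ← mul_add, mul_div_mul_left _ _ hr0]

/-- `hh` is the hyperbolic cosine of the displacement of `I` -/
lemma cosh_I (g : G) : Real.cosh (dist UpperHalfPlane.I (g • UpperHalfPlane.I)) = hh g := by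
  have hdet := Pool.Agent.W745.det_eq g
  set a := g.1 0 0 with ha
  set b := g.1 0 1 with hb
  set c := g.1 1 0 with hc
  set d := g.1 1 1 with hd
  have hcoe : ((g • UpperHalfPlane.I : ℍ) : ℂ) = ((a : ℂ) * Complex.I + b) / ((c : ℂ) * Complex.I + d) := by
    rw [UpperHalfPlane.coe_specialLinearGroup_apply]
    rfl
  have hcd : 0 < c ^ 2 + d ^ 2 := by
    by_contra hcon
    have h0 : c ^ 2 + d ^ 2 = 0 := le_antisymm (not_lt.1 hcon) (by positivity)
    have hc0 : c = 0 := by nlinarith [sq_nonneg c, sq_nonneg d]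
    have hd0 : d = 0 := by nlinarith [sq_nonneg c, sq_nonneg d]
    rw [hc0, hd0] at hdet
    norm_num at hdet
  have hval : ((a : ℂ) * Complex.I + b) / ((c : ℂ) * Complex.I + d) =
      (((a * c + b * d) / (c ^ 2 + d ^ 2) : ℝ) : ℂ) + ((1 / (c ^ 2 + d ^ 2) : ℝ) : ℂ) * Complex.I := by
    have hne : ((c : ℂ) * Complex.I + d) ≠ 0 := by
      intro h0
      have h1 := congrArg Complex.re h0
      have h2 := congrArg Complex.im h0
      simp at h1 h2
      rw [h1, h2] at hcd
      norm_num at hcd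
    have hne2 : ((c ^ 2 + d ^ 2 : ℝ) : ℂ) ≠ 0 := by exact_mod_cast hcd.ne'
    have hdet' : (a : ℂ) * d - b * c = 1 := by exact_mod_cast hdet
    rw [div_eq_iff hne]
    push_cast at hne2 ⊢
    field_simp
    have hI := Complex.I_sq
    ring_nf
    rw [hI]
    linear_combination (Complex.I * (d : ℂ) - c) * hdet'
  have hre : (g • UpperHalfPlane.I : ℍ).re = (a * c + b * d) / (c ^ 2 + d ^ 2) := by
    rw [← UpperHalfPlane.coe_re, hcoe, hval]
    simp only [Complex.add_re, Complex.ofReal_re, Complex.mul_re, Complex.I_re, Complex.ofReal_im, Complex.I_im]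
    ring
  have him : (g • UpperHalfPlane.I : ℍ).im = 1 / (c ^ 2 + d ^ 2) := by
    rw [← UpperHalfPlane.coe_im, hcoe, hval]
    simp only [Complex.add_im, Complex.ofReal_re, Complex.mul_im, Complex.I_re, Complex.ofReal_im, Complex.I_im]
    ring
  rw [UpperHalfPlane.cosh_dist', hre, him, hh_eq, ← ha, ← hb, ← hc, ← hd]
  simp only [UpperHalfPlane.I_re, UpperHalfPlane.I_im]
  have hI : (a * c + b * d) ^ 2 + 1 = (a ^ 2 + b ^ 2) * (c ^ 2 + d ^ 2) := by
    have : (a * d - b * c) ^ 2 = 1 := by rw [hdet]; norm_num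
    nlinarith
  field_simp
  nlinarith

/-- the displacement of `p₀` -/
lemma cosh_p (p₀ : ℍ) (g : G) : Real.cosh (dist p₀ (g • p₀)) = hh ((p₀.toSL2R)⁻¹ * g * p₀.toSL2R) := by
  rw [← cosh_I]
  congr 1
  have h1 : (p₀.toSL2R : G) • UpperHalfPlane.I = p₀ := UpperHalfPlane.toSL2R_smul_I p₀
  have h2 : dist UpperHalfPlane.I (((p₀.toSL2R)⁻¹ * g * p₀.toSL2R : G) • UpperHalfPlane.I) =
      dist ((p₀.toSL2R : G) • UpperHalfPlane.I)
        ((p₀.toSL2R : G) • (((p₀.toSL2R)⁻¹ * g * p₀.toSL2R : G) • UpperHalfPlane.I)) :=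
    (dist_smul _ _ _).symm
  rw [h2, smul_smul, h1]
  have h3 : (p₀.toSL2R : G) * ((p₀.toSL2R)⁻¹ * g * p₀.toSL2R) = g * p₀.toSL2R := by group
  rw [h3, mul_smul, h1]

lemma cosh_le {x r : ℝ} (hx : 0 ≤ x) (hr : 0 ≤ r) : Real.cosh x ≤ Real.cosh r ↔ x ≤ r := by
  rw [Real.cosh_le_cosh, abs_of_nonneg hx, abs_of_nonneg hr]

/-- the preimage of the ball -/
lemma pre_ball (p₀ : ℍ) {r : ℝ} (hr : 0 < r) :
    pr ⁻¹' (ballP p₀ r) = (fun g : G => (p₀.toSL2R)⁻¹ * g * p₀.toSL2R) ⁻¹' (Bx (Real.cosh r)) := by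
  ext g
  constructor
  · rintro ⟨g', hg', hd⟩
    have h1 : g' • p₀ = g • p₀ := smul_pr hg' p₀
    show hh _ ≤ _
    rw [← cosh_p, cosh_le dist_nonneg hr.le, ← h1]
    exact hd
  · intro hg
    have h1 : hh ((p₀.toSL2R)⁻¹ * g * p₀.toSL2R) ≤ Real.cosh r := hg
    rw [← cosh_p, cosh_le dist_nonneg hr.le] at h1
    exact ⟨g, rfl, h1⟩

lemma ball_meas (p₀ : ℍ) {r : ℝ} (hr : 0 < r) : MeasurableSet (ballP p₀ r) := by
  apply IsClosed.measurableSet
  rw [← (QuotientGroup.isQuotientMap_mk (Subgroup.center G)).isClosed_preimage]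
  show IsClosed (pr ⁻¹' (ballP p₀ r))
  rw [pre_ball p₀ hr]
  apply IsClosed.preimage
  · fun_prop
  · exact isClosed_le hh_continuous continuous_const

/-- conjugation preserves Haar measure -/
lemma conj_mp (h : G) : MeasurePreserving (fun g : G => h⁻¹ * g * h) hm hm :=
  (hm_mul_right h).comp (hm_mul_left h⁻¹)

instance : (hm.map pr).IsMulLeftInvariant := by
  constructor
  intro x
  obtain ⟨h, rfl⟩ := pr_surj x
  rw [Measure.map_map (by fun_prop) pr_cont.measurable]
  have e : (fun y => pr h * y) ∘ pr = pr ∘ (fun g => h * g) := by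
    funext g
    rfl
  rw [e, ← Measure.map_map pr_cont.measurable (by fun_prop), (hm_mul_left h).map_eq]

instance : IsFiniteMeasureOnCompacts (hm.map pr) := by
  constructor
  intro K hK
  have hop : ∀ n : ℕ, IsOpen (pr '' {g | hh g < n}) := fun n =>
    pr_open _ (isOpen_lt hh_continuous continuous_const)
  have hcov : K ⊆ ⋃ n : ℕ, pr '' {g | hh g < n} := by
    intro x _
    obtain ⟨g, rfl⟩ := pr_surj x
    obtain ⟨n, hn⟩ := exists_nat_gt (hh g)
    rw [mem_iUnion]
    exact ⟨n, g, hn, rfl⟩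
  have hdir : Directed (· ⊆ ·) (fun n : ℕ => pr '' {g : G | hh g < n}) := by
    apply Monotone.directed_le
    intro n m hnm
    apply image_mono
    intro g hg
    have h1 : hh g < n := hg
    have h2 : (n : ℝ) ≤ m := by exact_mod_cast hnm
    exact lt_of_lt_of_le h1 h2
  obtain ⟨n, hn⟩ := hK.elim_directed_cover _ hop hcov hdir
  have h3 : hm.map pr K ≤ hm (Bx (max n 1)) := by
    refine (measure_mono hn).trans ?_
    rw [Measure.map_apply pr_cont.measurable (hop n).measurableSet]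
    apply measure_mono
    rintro g ⟨g', hg', he⟩
    have h4 : hh g' < n := hg'
    rw [hh_pr he] at h4
    exact h4.le.trans (le_max_left _ _)
  refine h3.trans_lt ?_
  rw [hm_Bx (le_max_right _ _)]
  exact ENNReal.ofReal_lt_top

lemma scal (m : Measure PSL) [m.IsHaarMeasure] : ∃ c : ℝ≥0∞, c ≠ 0 ∧ c ≠ ⊤ ∧ m = c • hm.map pr := by
  have h1 := Measure.isMulLeftInvariant_eq_smul (hm.map pr) m
  set κ := Measure.haarScalarFactor (hm.map pr) m with hκ
  have hκ0 : κ ≠ 0 := by
    intro h0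
    rw [h0, zero_smul] at h1
    have h2 : hm.map pr univ = 0 := by rw [h1]; rfl
    rw [Measure.map_apply pr_cont.measurable MeasurableSet.univ, preimage_univ] at h2
    exact (IsOpen.measure_pos hm isOpen_univ univ_nonempty).ne' h2
  refine ⟨((κ⁻¹ : ℝ≥0) : ℝ≥0∞), ?_, ENNReal.coe_ne_top, ?_⟩
  · rw [ENNReal.coe_ne_zero]
    exact inv_ne_zero hκ0
  · rw [h1]
    ext s _
    rw [Measure.smul_apply, Measure.smul_apply, ENNReal.smul_def, smul_eq_mul, smul_eq_mul, ← mul_assoc,
      ← ENNReal.coe_mul, inv_mul_cancel₀ hκ0, ENNReal.coe_one, one_mul]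

/-- **transfer of Haar measure** -/
theorem main : HaarTransStmt := by
  intro m _ p₀
  refine ⟨p₀.toSL2R, fun r hr => ?_⟩
  obtain ⟨c, hc0, hc, hmc⟩ := scal m
  set h₀ : G := p₀.toSL2R with hh0
  set x := Real.cosh r with hx
  have hx1 : 1 < x := Real.one_lt_cosh.2 hr.ne'
  have hB := ball_meas p₀ hr
  have hpre := pre_ball p₀ hr
  have hval : hm (pr ⁻¹' (ballP p₀ r)) = ENNReal.ofReal (x - 1) := by
    rw [hpre, (conj_mp h₀).measure_preimage (Bx_meas x).nullMeasurableSet, hm_Bx hx1.le]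
  have hmB : m (ballP p₀ r) = c * ENNReal.ofReal (x - 1) := by
    rw [hmc, Measure.smul_apply, Measure.map_apply pr_cont.measurable hB, hval, smul_eq_mul]
  have hx0 : ENNReal.ofReal (x - 1) ≠ 0 := by
    rw [Ne, ENNReal.ofReal_eq_zero, not_le]; linarith
  refine ⟨?_, ?_, ?_⟩
  · rw [hmB]
    exact pos_iff_ne_zero.2 (mul_ne_zero hc0 hx0)
  · rw [hmB]
    exact ENNReal.mul_lt_top (lt_top_iff_ne_top.2 hc) ENNReal.ofReal_lt_top
  · have e1 : m.restrict (ballP p₀ r) = c • (hm.restrict (pr ⁻¹' (ballP p₀ r))).map pr := by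
      rw [hmc, Measure.restrict_smul, Measure.restrict_map pr_cont.measurable hB]
    have hcm : Measurable (fun g : G => h₀ * g * h₀⁻¹) := by
      have : Continuous (fun g : G => h₀ * g * h₀⁻¹) := by fun_prop
      exact this.measurable
    have e2 : (hm.restrict (Bx x)).map (fun g : G => h₀ * g * h₀⁻¹) = hm.restrict (pr ⁻¹' (ballP p₀ r)) := by
      have h1 := (conj_mp h₀⁻¹).restrict_preimage (s := pr ⁻¹' (ballP p₀ r)) (pr_cont.measurable hB)
      have h2 : (fun g : G => h₀⁻¹⁻¹ * g * h₀⁻¹) ⁻¹' (pr ⁻¹' (ballP p₀ r)) = Bx x := by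
        rw [hpre]
        ext g
        simp only [mem_preimage]
        have : h₀⁻¹ * (h₀⁻¹⁻¹ * g * h₀⁻¹) * h₀ = g := by group
        rw [this]
      rw [h2] at h1
      have h3 := h1.map_eq
      rw [← h3]
      congr 1
      funext g
      rw [inv_inv]
    have e3 : (bm x).map (fun g : G => (QuotientGroup.mk (h₀ * g * h₀⁻¹) : PSL)) =
        ENNReal.ofReal ((x - 1)⁻¹) • (hm.restrict (pr ⁻¹' (ballP p₀ r))).map pr := by
      have : (fun g : G => (QuotientGroup.mk (h₀ * g * h₀⁻¹) : PSL)) = pr ∘ (fun g : G => h₀ * g * h₀⁻¹) := rfl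
      rw [this, ← Measure.map_map pr_cont.measurable hcm]
      unfold bm
      rw [Measure.map_smul, Measure.map_smul, e2]
    rw [e3, e1, smul_smul, hmB]
    congr 1
    rw [ENNReal.mul_inv (Or.inl hc0) (Or.inl hc), mul_comm c⁻¹, mul_assoc, ENNReal.inv_mul_cancel hc0 hc, mul_one,
      ENNReal.ofReal_inv_of_pos (by linarith)]

end

end Pool.Agent.W196.BA.HT
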