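import Pool.Agent.W314.BA.Stm

/-!
# Maximal inequality for a rotation of the circle
-/

set_option autoImplicit false

open MeasureTheory Filter Topology
open scoped ENNReal

namespace Pool.Agent.W196.BA

open Pool.Agent.W314.BA

/-- the good starting points -/
noncomputable def AA (l : ℝ≥0∞) (a : ℕ → ℝ≥0∞) (m : ℕ) : Finset ℕ := by
  classical
  exact (Finset.range m).filter (fun i => ∃ r, 1 ≤ r ∧ i + r ≤ m ∧ l * r < ∑ k ∈ Finset.range r, a (i + k))

lemma mem_AA {l : ℝ≥0∞} {a : ℕ → ℝ≥0∞} {m i : ℕ} :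
    i ∈ AA l a m ↔ i < m ∧ ∃ r, 1 ≤ r ∧ i + r ≤ m ∧ l * r < ∑ k ∈ Finset.range r, a (i + k) := by
  unfold AA
  simp

/-- the discrete one-sided maximal inequality -/
lemma disc (l : ℝ≥0∞) (m : ℕ) : ∀ a : ℕ → ℝ≥0∞,
    l * ((AA l a m).card : ℝ≥0∞) ≤ ∑ k ∈ Finset.range m, a k := by
  induction m using Nat.strong_induction_on with
  | _ m ih =>
    intro a
    rcases Nat.eq_zero_or_pos m with rfl | hm
    · simp [AA]
    by_cases h0 : ∃ r, 1 ≤ r ∧ r ≤ m ∧ l * r < ∑ k ∈ Finset.range r, a k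
    · obtain ⟨r, hr1, hrm, hr⟩ := h0
      have hsub : AA l a m ⊆ Finset.range r ∪ (AA l (fun k => a (r + k)) (m - r)).image (fun j => r + j) := by
        intro i hi
        rw [mem_AA] at hi
        obtain ⟨him, s, hs1, hs2, hs3⟩ := hi
        rw [Finset.mem_union, Finset.mem_range, Finset.mem_image]
        rcases lt_or_ge i r with h | h
        · exact Or.inl h
        · right
          refine ⟨i - r, ?_, by omega⟩
          rw [mem_AA]
          refine ⟨by omega, s, hs1, by omega, ?_⟩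
          have e : ∀ k, r + (i - r + k) = i + k := by intro k; omega
          simp only [e]
          exact hs3
      have hcard : (AA l a m).card ≤ r + (AA l (fun k => a (r + k)) (m - r)).card := by
        refine (Finset.card_le_card hsub).trans ((Finset.card_union_le _ _).trans ?_)
        rw [Finset.card_range]
        exact Nat.add_le_add_left Finset.card_image_le _
      have h1 := ih (m - r) (by omega) (fun k => a (r + k))
      have e1 : ∑ k ∈ Finset.range m, a k = ∑ k ∈ Finset.range r, a k + ∑ k ∈ Finset.range (m - r), a (r + k) := by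
        have : m = r + (m - r) := by omega
        conv_lhs => rw [this]
        rw [Finset.sum_range_add]
      rw [e1]
      calc l * ((AA l a m).card : ℝ≥0∞)
          ≤ l * ((r + (AA l (fun k => a (r + k)) (m - r)).card : ℕ) : ℝ≥0∞) := by
            gcongr
        _ = l * r + l * ((AA l (fun k => a (r + k)) (m - r)).card : ℝ≥0∞) := by
            push_cast; ring
        _ ≤ _ := add_le_add hr.le h1
    · have hsub : AA l a m ⊆ (AA l (fun k => a (1 + k)) (m - 1)).image (fun j => 1 + j) := by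
        intro i hi
        rw [mem_AA] at hi
        obtain ⟨him, s, hs1, hs2, hs3⟩ := hi
        rw [Finset.mem_image]
        rcases Nat.eq_zero_or_pos i with h | h
        · exfalso
          apply h0
          subst h
          refine ⟨s, hs1, by omega, ?_⟩
          simpa using hs3
        · refine ⟨i - 1, ?_, by omega⟩
          rw [mem_AA]
          refine ⟨by omega, s, hs1, by omega, ?_⟩
          have e : ∀ k, 1 + (i - 1 + k) = i + k := by intro k; omega
          simp only [e]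
          exact hs3
      have hcard : (AA l a m).card ≤ (AA l (fun k => a (1 + k)) (m - 1)).card :=
        (Finset.card_le_card hsub).trans Finset.card_image_le
      have h1 := ih (m - 1) (by omega) (fun k => a (1 + k))
      have e1 : ∑ k ∈ Finset.range m, a k = ∑ k ∈ Finset.range 1, a k + ∑ k ∈ Finset.range (m - 1), a (1 + k) := by
        have : m = 1 + (m - 1) := by omega
        conv_lhs => rw [this]
        rw [Finset.sum_range_add]
      rw [e1]
      calc l * ((AA l a m).card : ℝ≥0∞)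
          ≤ l * ((AA l (fun k => a (1 + k)) (m - 1)).card : ℝ≥0∞) := by gcongr
        _ ≤ _ := h1
        _ ≤ _ := le_add_self

/-- one-sided level sets -/
def EE (l : ℝ≥0∞) (α : T) (φ : T → ℝ≥0∞) (R : ℕ) : Set T :=
  {z | ∃ r, 1 ≤ r ∧ r ≤ R ∧ l * r < ∑ k ∈ Finset.range r, φ (z + k • α)}

lemma meas_phi {φ : T → ℝ≥0∞} (hφ : Measurable φ) (β : T) : Measurable (fun z => φ (z + β)) :=
  hφ.comp (measurable_add_const β)

lemma EE_meas (l : ℝ≥0∞) (α : T) {φ : T → ℝ≥0∞} (hφ : Measurable φ) (R : ℕ) :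
    MeasurableSet (EE l α φ R) := by
  have : EE l α φ R = ⋃ r : ℕ, ⋃ (_ : 1 ≤ r ∧ r ≤ R), {z | l * r < ∑ k ∈ Finset.range r, φ (z + k • α)} := by
    ext z
    simp only [EE, Set.mem_setOf_eq, Set.mem_iUnion, exists_prop, and_assoc]
  rw [this]
  apply MeasurableSet.iUnion
  intro r
  apply MeasurableSet.iUnion
  intro _
  apply measurableSet_lt measurable_const
  exact Finset.measurable_sum _ fun k _ => meas_phi hφ _

instance : tm.IsAddHaarMeasure := by unfold tm; infer_instance

instance : IsProbabilityMeasure tm := by unfold tm; infer_instance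

lemma inv_int (φ : T → ℝ≥0∞) (β : T) : ∫⁻ z, φ (z + β) ∂tm = ∫⁻ z, φ z ∂tm :=
  lintegral_add_right_eq_self φ β

lemma step (l : ℝ≥0∞) (α : T) {φ : T → ℝ≥0∞} (hφ : Measurable φ) (R n : ℕ) :
    n * (l * tm (EE l α φ R)) ≤ n * (∫⁻ z, φ z ∂tm) + R * ∫⁻ z, φ z ∂tm := by
  classical
  have h1 : ∀ z : T, ∑ i ∈ Finset.range n, l * (EE l α φ R).indicator 1 (z + i • α) ≤
      ∑ k ∈ Finset.range (n + R), φ (z + k • α) := by
    intro z
    refine le_trans ?_ (disc l (n + R) (fun k => φ (z + k • α)))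
    rw [← Finset.mul_sum]
    gcongr
    have h2 : ∑ i ∈ Finset.range n, (EE l α φ R).indicator (1 : T → ℝ≥0∞) (z + i • α) =
        (((Finset.range n).filter (fun i => z + i • α ∈ EE l α φ R)).card : ℝ≥0∞) := by
      rw [Finset.card_filter]
      push_cast
      apply Finset.sum_congr rfl
      intro i _
      simp [Set.indicator_apply]
    rw [h2]
    have h3 : (Finset.range n).filter (fun i => z + i • α ∈ EE l α φ R) ⊆ AA l (fun k => φ (z + k • α)) (n + R) := by
      intro i hi
      rw [Finset.mem_filter, Finset.mem_range] at hi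
      obtain ⟨hin, r, hr1, hr2, hr3⟩ := hi
      rw [mem_AA]
      refine ⟨by omega, r, hr1, by omega, ?_⟩
      refine lt_of_lt_of_eq hr3 ?_
      apply Finset.sum_congr rfl
      intro k _
      rw [add_smul, add_assoc]
    exact_mod_cast Finset.card_le_card h3
  have h4 := lintegral_mono (μ := tm) h1
  rw [lintegral_finsetSum _ (fun i _ => ?_), lintegral_finsetSum _ (fun k _ => meas_phi hφ _)] at h4
  · have h5 : ∀ i ∈ Finset.range n, ∫⁻ z, l * (EE l α φ R).indicator 1 (z + i • α) ∂tm = l * tm (EE l α φ R) := by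
      intro i _
      rw [lintegral_const_mul _ ?_, inv_int, lintegral_indicator_one (EE_meas l α hφ R)]
      exact meas_phi ((measurable_const (a := (1 : ℝ≥0∞))).indicator (EE_meas l α hφ R)) _
    rw [Finset.sum_congr rfl h5, Finset.sum_congr rfl (fun k _ => inv_int φ _)] at h4
    simp only [Finset.sum_const, Finset.card_range, nsmul_eq_mul] at h4
    refine h4.trans_eq ?_
    push_cast
    ring
  · exact (meas_phi ((measurable_const (a := (1 : ℝ≥0∞))).indicator (EE_meas l α hφ R)) _).const_mul _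

lemma arch {x I c : ℝ≥0∞} (hI : I ≠ ⊤) (hc : c ≠ ⊤) (h : ∀ n : ℕ, n * x ≤ n * I + c) : x ≤ I := by
  have hx : x ≠ ⊤ := by
    intro hx
    have := h 1
    rw [hx] at this
    simp only [Nat.cast_one, one_mul, top_le_iff, ENNReal.add_eq_top] at this
    exact this.elim hI hc
  lift x to NNReal using hx
  lift I to NNReal using hI
  lift c to NNReal using hc
  by_contra hcon
  push Not at hcon
  have h1 : I < x := by exact_mod_cast hcon
  have h1' : (0 : ℝ) < (x : ℝ) - I := sub_pos.2 (by exact_mod_cast h1)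
  obtain ⟨n, hn⟩ := exists_nat_gt ((c : ℝ) / ((x : ℝ) - I))
  rw [div_lt_iff₀ h1'] at hn
  have h2 : (n : ℝ) * x ≤ n * I + c := by exact_mod_cast h n
  nlinarith

lemma one_sided (l : ℝ≥0∞) (hl0 : l ≠ 0) (hl : l ≠ ⊤) (α : T) {φ : T → ℝ≥0∞} (hφ : Measurable φ) :
    tm {z | ∃ r : ℕ, 1 ≤ r ∧ l * r < ∑ k ∈ Finset.range r, φ (z + k • α)} ≤ (∫⁻ z, φ z ∂tm) / l := by
  rcases eq_or_ne (∫⁻ z, φ z ∂tm) ⊤ with hI | hI
  · rw [hI, ENNReal.top_div_of_ne_top hl]
    exact le_top
  have h1 : ∀ R, tm (EE l α φ R) ≤ (∫⁻ z, φ z ∂tm) / l := by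
    intro R
    rw [ENNReal.le_div_iff_mul_le (Or.inl hl0) (Or.inl hl), mul_comm]
    exact arch hI (ENNReal.mul_ne_top (ENNReal.natCast_ne_top R) hI) (fun n => step l α hφ R n)
  have h2 : {z | ∃ r : ℕ, 1 ≤ r ∧ l * r < ∑ k ∈ Finset.range r, φ (z + k • α)} = ⋃ R, EE l α φ R := by
    ext z
    simp only [EE, Set.mem_setOf_eq, Set.mem_iUnion]
    constructor
    · rintro ⟨r, h1, h2⟩
      exact ⟨r, r, h1, le_rfl, h2⟩
    · rintro ⟨_, r, h1, _, h2⟩
      exact ⟨r, h1, h2⟩
  have hmono : Monotone (fun R => EE l α φ R) := by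
    intro R R' h z hz
    obtain ⟨r, h1, h2, h3⟩ := hz
    exact ⟨r, h1, h2.trans h, h3⟩
  rw [h2, hmono.measure_iUnion]
  exact iSup_le h1

lemma sum_split (f : ℤ → ℝ≥0∞) (N : ℕ) : ∑ n ∈ Finset.Icc (-(N : ℤ)) N, f n ≤
    ∑ k ∈ Finset.range (N + 1), f k + ∑ k ∈ Finset.range (N + 1), f (-(k : ℤ)) := by
  classical
  have h1 : Finset.Icc (-(N : ℤ)) N ⊆ (Finset.range (N + 1)).image (fun k : ℕ => (k : ℤ)) ∪
      (Finset.range (N + 1)).image (fun k : ℕ => -(k : ℤ)) := by
    intro n hn
    rw [Finset.mem_Icc] at hn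
    rw [Finset.mem_union, Finset.mem_image, Finset.mem_image]
    rcases le_or_gt 0 n with h | h
    · left
      exact ⟨n.toNat, by rw [Finset.mem_range]; omega, by omega⟩
    · right
      exact ⟨(-n).toNat, by rw [Finset.mem_range]; omega, by omega⟩
  refine (Finset.sum_le_sum_of_subset h1).trans ?_
  have h2 := Finset.sum_union_inter (s₁ := (Finset.range (N + 1)).image (fun k : ℕ => (k : ℤ)))
    (s₂ := (Finset.range (N + 1)).image (fun k : ℕ => -(k : ℤ))) (f := f)
  refine le_trans (le_self_add (b := ∑ n ∈ (Finset.range (N + 1)).image (fun k : ℕ => (k : ℤ)) ∩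
      (Finset.range (N + 1)).image (fun k : ℕ => -(k : ℤ)), f n)) ?_
  rw [h2, Finset.sum_image (by intro a _ b _ h; simpa using h),
    Finset.sum_image (by intro a _ b _ h; simpa using h)]

/-- **the two-sided maximal inequality** -/
theorem main : MaxStmt := by
  refine ⟨4, by norm_num, fun α φ hφ l hl0 hl => ?_⟩
  have h2 : l / 2 ≠ 0 := by
    rw [ENNReal.div_ne_zero]
    exact ⟨hl0, by norm_num⟩
  have h2' : l / 2 ≠ ⊤ := ENNReal.div_ne_top hl (by norm_num)
  have hp := one_sided (l / 2) h2 h2' α hφ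
  have hm := one_sided (l / 2) h2 h2' (-α) hφ
  have hsub : {z : T | ∃ N : ℕ, l * (2 * N + 1) < ∑ n ∈ Finset.Icc (-(N : ℤ)) N, φ (z + n • α)} ⊆
      {z | ∃ r : ℕ, 1 ≤ r ∧ l / 2 * r < ∑ k ∈ Finset.range r, φ (z + k • α)} ∪
      {z | ∃ r : ℕ, 1 ≤ r ∧ l / 2 * r < ∑ k ∈ Finset.range r, φ (z + k • (-α))} := by
    rintro z ⟨N, hN⟩
    by_contra hcon
    rw [Set.mem_union, not_or] at hcon
    simp only [Set.mem_setOf_eq, not_exists, not_and, not_lt] at hcon
    have h3 := hcon.1 (N + 1) (by omega)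
    have h4 := hcon.2 (N + 1) (by omega)
    have h5 := sum_split (fun n : ℤ => φ (z + n • α)) N
    simp only [natCast_zsmul, neg_smul] at h5
    simp only [smul_neg] at h4
    have h6 : ∑ n ∈ Finset.Icc (-(N : ℤ)) N, φ (z + n • α) ≤ l / 2 * ((N + 1 : ℕ) : ℝ≥0∞) + l / 2 * ((N + 1 : ℕ) : ℝ≥0∞) :=
      h5.trans (add_le_add h3 h4)
    have h7 : l / 2 * ((N + 1 : ℕ) : ℝ≥0∞) + l / 2 * ((N + 1 : ℕ) : ℝ≥0∞) = l * ((N + 1 : ℕ) : ℝ≥0∞) := by
      rw [← add_mul, ENNReal.add_halves]
    rw [h7] at h6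
    have h8 : l * ((N + 1 : ℕ) : ℝ≥0∞) ≤ l * (2 * N + 1) := by
      gcongr
      push_cast
      gcongr
      have : (N : ℝ≥0∞) ≤ 2 * N := by
        calc (N : ℝ≥0∞) = 1 * N := (one_mul _).symm
          _ ≤ 2 * N := by gcongr; norm_num
      exact this
    exact absurd hN (not_lt.2 (h6.trans h8))
  refine (measure_mono hsub).trans ((measure_union_le _ _).trans ((add_le_add hp hm).trans_eq ?_))
  have e : ∀ I : ℝ≥0∞, I / (l / 2) = 2 * (I / l) := by
    intro I
    rw [div_eq_mul_inv, div_eq_mul_inv, ENNReal.mul_inv (Or.inr (by norm_num)) (Or.inr (by norm_num)), inv_inv,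
      div_eq_mul_inv]
    ring
  rw [e, mul_div_assoc]
  ring

end Pool.Agent.W196.BA
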